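import Mathlib
import Pool.Agent.MP_2b113a_an.H33.LieC

/-!
Closed families of weight vectors.
-/

namespace Pool.Agent.MP_2b113a_an.H99

open Pool.Agent.MP_2b113a_an.H33

variable {L : Type} [LieRing L] [LieAlgebra ℚ L]

/-- The part of a closed family inside a unipotent radical. -/
def clSub {R : Set L} (hR : CL R) {σ : L} (hσ : Diag σ) : Submodule ℚ L where
  carrier := {x | x ∈ R ∧ x ∈ pos σ}
  add_mem' := fun {a b} ha hb => ⟨hR.add σ hσ a ha.2 b hb.2 ha.1 hb.1, add_mem ha.2 hb.2⟩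
  zero_mem' := ⟨hR.zero, zero_mem _⟩
  smul_mem' := fun c a ha => ⟨hR.smul c a ha.1, Submodule.smul_mem _ c ha.2⟩

theorem cl_preimage {R : Set L} (hR : CL R) {g : Module.End ℚ L} (hg : IsAut g) :
    CL (g ⁻¹' R) where
  zero := by simpa using hR.zero
  smul := fun c x hx => by simpa using hR.smul c _ hx
  add := fun σ hσ x hx y hy hx' hy' => by
    simpa using hR.add _ (hg.diag hσ) _ (hg.mem_fil_iff.2 hx) _ (hg.mem_fil_iff.2 hy) hx' hy'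
  lie := fun σ hσ x hx y hy hx' hy' => by
    simpa [hg.lie] using
      hR.lie _ (hg.diag hσ) _ (hg.mem_fil_iff.2 hx) _ (hg.mem_fil_iff.2 hy) hx' hy'

variable (τ : Tor L)

/-- Both forms are positive somewhere. -/
def NP (β γ : Module.Dual ℚ τ.S) : Prop := ∃ σ : τ.S, 0 < β σ ∧ 0 < γ σ

variable {τ}

theorem NP.symm {β γ : Module.Dual ℚ τ.S} (h : NP τ β γ) : NP τ γ β :=
  let ⟨σ, h1, h2⟩ := h
  ⟨σ, h2, h1⟩

theorem ne_of_apply {β : Module.Dual ℚ τ.S} {s : τ.S} (h : β s ≠ 0) : β ≠ 0 := by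
  rintro rfl
  exact h rfl

theorem np_ker {β γ : Module.Dual ℚ τ.S} {s : τ.S} (hβ : β ≠ 0) (h : β s = 0) (h' : γ s ≠ 0) :
    NP τ β γ :=
  τ.exists_pos_two hβ (ne_of_apply h') fun c _ e => h' (by simp [e, h])

theorem np_split {δ γ ε : Module.Dual ℚ τ.S} {s : τ.S} (hδ : δ s ≠ 0) (hγ : γ ≠ 0) (h : γ s = 0)
    (e : δ + ε = γ) : NP τ δ ε := by
  have h1 : ε s = -δ s := by
    have := LinearMap.congr_fun e s
    rw [LinearMap.add_apply, h] at this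
    linarith
  refine τ.exists_pos_two (ne_of_apply hδ) (ne_of_apply (s := s) (by simpa [h1] using hδ))
    fun c _ e' => hγ ?_
  have h2 : c = 1 := by
    have := LinearMap.congr_fun e' s
    simp only [h1, LinearMap.neg_apply, LinearMap.smul_apply, smul_eq_mul, neg_inj] at this
    exact (mul_right_cancel₀ hδ (by rw [← this, one_mul])).symm
  rw [← e, e', h2, one_smul, add_neg_cancel]

theorem exists_pos {β : Module.Dual ℚ τ.S} (h : β ≠ 0) : ∃ σ : τ.S, 0 < β σ := by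
  obtain ⟨s, hs⟩ := DFunLike.ne_iff.1 h
  have hs' : β s ≠ 0 := hs
  exact ⟨(β s)⁻¹ • s, by simp [hs']⟩

theorem wt_pos {β : Module.Dual ℚ τ.S} {σ : τ.S} (h : 0 < β σ) {x : L} (hx : x ∈ τ.wt β) :
    x ∈ pos (σ : L) := mem_pos h (τ.wt_le_eig β σ hx)

theorem lie_wt {β γ ε : Module.Dual ℚ τ.S} {x y : L} (hx : x ∈ τ.wt β) (hy : y ∈ τ.wt γ)
    (e : β + γ = ε) : ⁅x, y⁆ ∈ τ.wt ε := e ▸ τ.lie_mem_wt hx hy

theorem cl_lie {R : Set L} (hR : CL R) {β γ : Module.Dual ℚ τ.S} (h : NP τ β γ) {x y : L}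
    (hx : x ∈ τ.wt β) (hy : y ∈ τ.wt γ) (hx' : x ∈ R) (hy' : y ∈ R) : ⁅x, y⁆ ∈ R :=
  let ⟨σ, h1, h2⟩ := h
  hR.lie _ (τ.diag' σ) _ (wt_pos h1 hx) _ (wt_pos h2 hy) hx' hy'

theorem cl_add {R : Set L} (hR : CL R) {β : Module.Dual ℚ τ.S} (h : β ≠ 0) {x y : L}
    (hx : x ∈ τ.wt β) (hy : y ∈ τ.wt β) (hx' : x ∈ R) (hy' : y ∈ R) : x + y ∈ R :=
  let ⟨σ, h1⟩ := exists_pos h
  hR.add _ (τ.diag' σ) _ (wt_pos h1 hx) _ (wt_pos h1 hy) hx' hy'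

theorem cl_sub {R : Set L} (hR : CL R) {β : Module.Dual ℚ τ.S} (h : β ≠ 0) {x y : L}
    (hx : x ∈ τ.wt β) (hy : y ∈ τ.wt β) (hx' : x ∈ R) (hy' : y ∈ R) : x - y ∈ R := by
  rw [sub_eq_add_neg]
  exact cl_add hR h hx (neg_mem hy) hx' (by simpa using hR.smul (-1) y hy')

variable [Module.Finite ℚ L]

theorem proj_wt {T : Set L} (hT : Submodule.span ℚ T = ⊤) {γ : Module.Dual ℚ τ.S}
    {W : Submodule ℚ L} (h : ∀ t ∈ T, ∃ β, t ∈ τ.wt β ∧ (β = γ → t ∈ W)) : τ.wt γ ≤ W := by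
  by_cases hγ : τ.wt γ = ⊥
  · simp [hγ]
  obtain ⟨σ, h1, -⟩ := τ.exists_generic
  have h2 : Submodule.span ℚ T ≤ W.comap (prj (σ : L) (γ σ)) := Submodule.span_le.2 fun t ht => by
    obtain ⟨β, h3, h4⟩ := h t ht
    show prj (σ : L) (γ σ) t ∈ W
    by_cases h0 : t = 0
    · simp [h0]
    rw [prj_of_mem (τ.wt_le_eig β σ h3)]
    split_ifs with h5
    · exact h4 (h1 β γ (fun hb => h0 (by simpa [hb] using h3)) hγ h5.symm)
    · exact zero_mem _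
  intro x hx
  have h3 : prj (σ : L) (γ σ) x ∈ W := h2 (hT.ge Submodule.mem_top)
  rwa [prj_self (τ.wt_le_eig γ σ hx)] at h3

theorem pos_subset {R : Set L} (hR : CL R) {σ : τ.S}
    (h : ∀ β : Module.Dual ℚ τ.S, 0 < β σ → ∀ x ∈ τ.wt β, x ∈ R) {x : L}
    (hx : x ∈ pos (σ : L)) : x ∈ R :=
  (τ.fil_le (p := (0 < ·)) (W := clSub hR (τ.diag' σ))
    (fun β hβ _ y hy => ⟨h β hβ y hy, wt_pos hβ hy⟩) hx).1

variable [LieAlgebra.IsSimple ℚ L]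

theorem span_eq_top {T : Set L} (h0 : ∃ t ∈ T, t ≠ 0)
    (h : ∀ β, ∀ x ∈ τ.wt β, ∀ t ∈ T, ⁅x, t⁆ ∈ Submodule.span ℚ T) : Submodule.span ℚ T = ⊤ := by
  refine eq_top_of_ideal (fun e => ?_) fun x y hy => ?_
  · obtain ⟨t, ht, h1⟩ := h0
    exact h1 (by simpa [e] using Submodule.subset_span (R := ℚ) ht)
  · have h1 : Submodule.span ℚ T ≤ (Submodule.span ℚ T).comap (ad x) :=
      Submodule.span_le.2 fun t ht => by
        have h2 : (Submodule.span ℚ T).comap (-ad t) = ⊤ := τ.eq_top fun β z hz => by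
          rw [Submodule.mem_comap, LinearMap.neg_apply, ad_apply, lie_skew]
          exact h β z hz t ht
        have h3 := h2.ge (Submodule.mem_top (x := x))
        rw [Submodule.mem_comap, LinearMap.neg_apply, ad_apply, lie_skew] at h3
        exact h3
    exact h1 hy

theorem star_wt {s : τ.S} (hs : s ≠ 0) {γ : Module.Dual ℚ τ.S} (hγ : γ s = 0) {W : Submodule ℚ L}
    (h : ∀ δ ε : Module.Dual ℚ τ.S, 0 < δ s → δ + ε = γ → ∀ a ∈ τ.wt δ, ∀ b ∈ τ.wt ε,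
      ⁅a, b⁆ ∈ W) : τ.wt γ ≤ W := by
  let T : Set L := {t | (∃ β : Module.Dual ℚ τ.S, β s ≠ 0 ∧ t ∈ τ.wt β) ∨
    ∃ δ ε : Module.Dual ℚ τ.S, 0 < δ s ∧ ε s = -δ s ∧ ∃ a ∈ τ.wt δ, ∃ b ∈ τ.wt ε, t = ⁅a, b⁆}
  have hT : Submodule.span ℚ T = ⊤ := by
    refine span_eq_top (τ := τ) ?_ fun κ x hx t ht => ?_
    · obtain ⟨β, h1, h2⟩ := τ.exists_wt hs
      obtain ⟨t, ht, h3⟩ := Submodule.exists_mem_ne_zero_of_ne_bot h2
      exact ⟨t, Or.inl ⟨β, h1.ne', ht⟩, h3⟩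
    · rcases ht with ⟨β, h1, ht⟩ | ⟨δ, ε, h1, h2, a, ha, b, hb, rfl⟩
      · by_cases h2 : (κ + β) s = 0
        · rw [LinearMap.add_apply] at h2
          rcases lt_or_gt_of_ne h1 with h3 | h3
          · exact Submodule.subset_span
              (Or.inr ⟨κ, β, by linarith, by linarith, x, hx, t, ht, rfl⟩)
          · rw [← lie_skew]
            exact neg_mem (Submodule.subset_span
              (Or.inr ⟨β, κ, h3, by linarith, t, ht, x, hx, rfl⟩))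
        · exact Submodule.subset_span (Or.inl ⟨_, h2, τ.lie_mem_wt hx ht⟩)
      · by_cases h3 : κ s = 0
        · rw [leibniz_lie]
          exact add_mem (Submodule.subset_span (Or.inr ⟨κ + δ, ε, by simpa [h3] using h1,
              by simpa [h3] using h2, _, τ.lie_mem_wt hx ha, b, hb, rfl⟩))
            (Submodule.subset_span (Or.inr ⟨δ, κ + ε, h1, by simpa [h3] using h2, a, ha, _,
              τ.lie_mem_wt hx hb, rfl⟩))
        · exact Submodule.subset_span (Or.inl ⟨κ + (δ + ε), by simpa [h2] using h3,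
            τ.lie_mem_wt hx (τ.lie_mem_wt ha hb)⟩)
  refine proj_wt hT fun t ht => ?_
  rcases ht with ⟨β, h1, ht⟩ | ⟨δ, ε, h1, -, a, ha, b, hb, rfl⟩
  · exact ⟨β, ht, fun e => absurd (e ▸ hγ) h1⟩
  · exact ⟨δ + ε, τ.lie_mem_wt ha hb, fun e => h δ ε h1 e a ha b hb⟩

omit [Module.Finite ℚ L] [LieAlgebra.IsSimple ℚ L] in
theorem neg_of_sum {δ ε γ : Module.Dual ℚ τ.S} {s : τ.S} (h1 : 0 < δ s) (e : δ + ε = γ)
    (hγ : γ s = 0) : ε s < 0 := by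
  have := LinearMap.congr_fun e s
  rw [LinearMap.add_apply, hγ] at this
  linarith

theorem star_cl {R : Set L} (hR : CL R) {s : τ.S} (hs : s ≠ 0) {γ : Module.Dual ℚ τ.S}
    (h0 : γ ≠ 0) (hγ : γ s = 0)
    (h : ∀ δ ε : Module.Dual ℚ τ.S, 0 < δ s → ε s < 0 → δ + ε = γ → ∀ a ∈ τ.wt δ, ∀ b ∈ τ.wt ε,
      ⁅a, b⁆ ∈ R) : ∀ x ∈ τ.wt γ, x ∈ R := by
  obtain ⟨σ, hσ⟩ := exists_pos h0
  exact fun x hx => (star_wt hs hγ (W := clSub hR (τ.diag' σ)) (fun δ ε h1 e a ha b hb =>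
    ⟨h δ ε h1 (neg_of_sum h1 e hγ) e a ha b hb, wt_pos hσ (lie_wt ha hb e)⟩) hx).1

theorem star_lie {R : Set L} (hR : CL R) {s : τ.S} (hs : s ≠ 0) {γ β : Module.Dual ℚ τ.S}
    (h0 : γ + β ≠ 0) (hγ : γ s = 0) {y : L} (hy : y ∈ τ.wt β)
    (h : ∀ δ ε : Module.Dual ℚ τ.S, δ s ≠ 0 → ε s ≠ 0 → δ + ε = γ → ∀ a ∈ τ.wt δ, ∀ b ∈ τ.wt ε,
      ⁅a, ⁅b, y⁆⁆ ∈ R) : ∀ x ∈ τ.wt γ, ⁅x, y⁆ ∈ R := by
  obtain ⟨σ, hσ⟩ := exists_pos h0
  intro x hx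
  have h1 : τ.wt γ ≤ (clSub hR (τ.diag' σ)).comap (-ad y) := star_wt hs hγ
    fun δ ε h1 e a ha b hb => by
      have h2 := neg_of_sum h1 e hγ
      rw [Submodule.mem_comap, LinearMap.neg_apply, ad_apply, lie_skew]
      refine ⟨?_, wt_pos hσ (τ.lie_mem_wt (lie_wt ha hb e) hy)⟩
      rw [lie_lie]
      exact cl_sub hR h0 (lie_wt ha (τ.lie_mem_wt hb hy) (by rw [← e]; abel))
        (lie_wt hb (τ.lie_mem_wt ha hy) (by rw [← e]; abel)) (h δ ε h1.ne' h2.ne e a ha b hb)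
        (h ε δ h2.ne h1.ne' (by rw [← e]; abel) b hb a ha)
  have h2 := h1 hx
  rw [Submodule.mem_comap, LinearMap.neg_apply, ad_apply, lie_skew] at h2
  exact h2.1

/-! ### Invariant families -/

omit [LieAlgebra.IsSimple ℚ L] in
theorem caseA {B : Set L} (hB : CL B) (hi : ∀ x, Nil x → ∀ y ∈ B, ex x y ∈ B)
    {β γ : Module.Dual ℚ τ.S} (h : NP τ γ β) {x y : L} (hx : x ∈ τ.wt γ) (hy : y ∈ τ.wt β)
    (hy' : y ∈ B) : ⁅x, y⁆ ∈ B := by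
  obtain ⟨σ, h1, h2⟩ := h
  have hx1 := wt_pos h1 hx
  have hn := (τ.diag' σ).nil_of_mem_pos hx1
  obtain ⟨N, hN⟩ := id hn
  have h3 : (ad x ^ (N + 2)) y = 0 := by rw [pow_add, hN]; simp
  have h4 := vander_inf (W := clSub hB (τ.diag' σ)) (N := N + 2)
    (w := fun i => (i.factorial : ℚ)⁻¹ • (ad x ^ i) y) (T := Set.univ) Set.infinite_univ
    (fun t _ => by
      rw [← ex_smul_apply hn h3]
      exact ⟨hi _ (hn.smul t) y hy', ex_mem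
        (fun z hz => lie_mem_pos (Submodule.smul_mem _ t hx1) hz) (wt_pos h2 hy)⟩) 1 (by omega)
  simpa using h4.1

theorem k1 {B : Set L} (hB : CL B) (hi : ∀ x, Nil x → ∀ y ∈ B, ex x y ∈ B)
    {β γ : Module.Dual ℚ τ.S} (hβ : β ≠ 0) (h : γ + β ≠ 0) {x y : L} (hx : x ∈ τ.wt γ)
    (hy : y ∈ τ.wt β) (hy' : y ∈ B) : ⁅x, y⁆ ∈ B := by
  obtain ⟨s, hs, h1⟩ := τ.exists_ker β
  by_cases h2 : γ s = 0
  · refine star_lie hB hs h h2 hy (fun δ ε h3 h4 e a ha b hb => ?_) x hx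
    exact caseA hB hi (np_split h3 h (by simp [h1, h2]) (by rw [← e]; abel)) ha
      (τ.lie_mem_wt hb hy) (caseA hB hi (np_ker hβ h1 h4).symm hb hy hy')
  · exact caseA hB hi (np_ker hβ h1 h2).symm hx hy hy'

theorem k2 {B : Set L} (hB : CL B) (hi : ∀ x, Nil x → ∀ y ∈ B, ex x y ∈ B)
    {β : Module.Dual ℚ τ.S} (hβ : β ≠ 0) {a y : L} (ha : a ∈ τ.wt (-β)) (hy : y ∈ τ.wt β)
    (hy' : y ∈ B) {γ : Module.Dual ℚ τ.S} (hγ : γ ≠ 0) {x : L} (hx : x ∈ τ.wt γ) :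
    ⁅x, ⁅a, y⁆⁆ ∈ B := by
  have key : ∀ γ : Module.Dual ℚ τ.S, γ ≠ 0 → γ + β ≠ 0 → ∀ x ∈ τ.wt γ, ⁅x, ⁅a, y⁆⁆ ∈ B := by
    intro γ hγ h x hx
    rw [leibniz_lie]
    exact cl_add hB hγ (lie_wt (τ.lie_mem_wt hx ha) hy (by abel))
      (lie_wt ha (τ.lie_mem_wt hx hy) (by abel))
      (k1 hB hi hβ (by simpa using hγ) (τ.lie_mem_wt hx ha) hy hy')
      (k1 hB hi h (by simpa [add_comm γ β] using hγ) ha (τ.lie_mem_wt hx hy)
        (k1 hB hi hβ h hx hy hy'))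
  by_cases h : γ + β = 0
  · obtain ⟨s, hs, h1⟩ := τ.exists_ker β
    have h2 : γ s = 0 := by simpa [h1] using LinearMap.congr_fun h s
    have hz : ⁅a, y⁆ ∈ τ.wt 0 := lie_wt ha hy (by abel)
    refine star_lie hB hs (by simpa using hγ) h2 hz (fun δ ε h3 h4 e a' ha' b hb => ?_) x hx
    exact k1 hB hi (ne_of_apply h4) (e ▸ hγ) ha' (lie_wt hb hz (add_zero _))
      (key ε (ne_of_apply h4) (ne_of_apply (s := s) (by simpa [h1] using h4)) b hb)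
  · exact key γ hγ h x hx

theorem two : TwoStmt := by
  intro L _ _ _ _ τ B hB hi ⟨θ, hθ, v, hv, hv0, hvB⟩ β hβ x hx
  let T : Set L := {t | (∃ β : Module.Dual ℚ τ.S, β ≠ 0 ∧ t ∈ τ.wt β ∧ t ∈ B) ∨
    ∃ β : Module.Dual ℚ τ.S, β ≠ 0 ∧ ∃ a ∈ τ.wt (-β), ∃ y ∈ τ.wt β, y ∈ B ∧ t = ⁅a, y⁆}
  have hT : Submodule.span ℚ T = ⊤ := by
    refine span_eq_top (τ := τ) ⟨v, Or.inl ⟨θ, hθ, hv, hvB⟩, hv0⟩ fun κ x hx t ht => ?_
    rcases ht with ⟨β, h1, ht, ht'⟩ | ⟨β, h1, a, ha, y, hy, hy', rfl⟩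
    · by_cases h2 : κ + β = 0
      · exact Submodule.subset_span
          (Or.inr ⟨β, h1, x, eq_neg_of_add_eq_zero_left h2 ▸ hx, t, ht, ht', rfl⟩)
      · exact Submodule.subset_span
          (Or.inl ⟨_, h2, τ.lie_mem_wt hx ht, k1 hB hi h1 h2 hx ht ht'⟩)
    · by_cases h2 : κ = 0
      · subst h2
        rw [leibniz_lie]
        exact add_mem (Submodule.subset_span
            (Or.inr ⟨β, h1, _, lie_wt hx ha (zero_add _), y, hy, hy', rfl⟩))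
          (Submodule.subset_span (Or.inr ⟨β, h1, a, ha, _, lie_wt hx hy (zero_add _),
            k1 hB hi h1 (by simpa using h1) hx hy hy', rfl⟩))
      · exact Submodule.subset_span (Or.inl ⟨κ, h2, lie_wt hx (τ.lie_mem_wt ha hy) (by abel),
          k2 hB hi h1 ha hy hy' h2 hx⟩)
  obtain ⟨σ, hσ⟩ := exists_pos hβ
  refine (proj_wt hT (W := clSub hB (τ.diag' σ)) (fun t ht => ?_) hx).1
  rcases ht with ⟨γ, -, ht, ht'⟩ | ⟨γ, -, a, ha, y, hy, -, rfl⟩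
  · exact ⟨γ, ht, fun e => ⟨ht', wt_pos hσ (e ▸ ht)⟩⟩
  · exact ⟨0, lie_wt ha hy (by abel), fun e => absurd e.symm hβ⟩

/-! ### Moving the apartment -/

theorem apt : AptStmt := by
  intro L _ _ _ _ τ R hR g hg h δ hδ y hy β hβ x hx
  have hR1 := cl_preimage hR hg
  have hR2 := cl_preimage hR1 (τ.nil_of_mem_wt hδ hy).isAut_ex
  have key : ∀ β, NP τ δ β → ∀ x ∈ τ.wt β, x ∈ ex y ⁻¹' (g ⁻¹' R) := fun β ⟨σ, h1, h2⟩ x hx =>
    pos_subset hR1 (σ := σ) (fun γ hγ z hz => h γ (ne_of_apply hγ.ne') z hz)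
      (ex_mem (fun z hz => lie_mem_pos (wt_pos h1 hy) hz) (wt_pos h2 hx))
  obtain ⟨s, hs, h1⟩ := τ.exists_ker δ
  by_cases h2 : β s = 0
  · exact star_cl hR2 hs hβ h2 (fun κ ε h3 h4 e a ha b hb =>
      cl_lie hR2 (np_split h3.ne' hβ h2 e) ha hb (key _ (np_ker hδ h1 h3.ne') a ha)
        (key _ (np_ker hδ h1 h4.ne) b hb)) x hx
  · exact key β (np_ker hδ h1 h2) x hx

/-! ### Commuting projections -/

theorem three (ht : TripleStmt) : ThreeStmt := by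
  intro L _ _ _ _ τ Ξ R Q P hCL h1 h2 h3 h4 ⟨ξ₀, hξ₀⟩
  have keep : ∀ {β γ : Module.Dual ℚ τ.S}, NP τ β γ → ∀ x ∈ τ.wt β, ∀ y ∈ τ.wt γ, ∀ ξ,
      x ∈ R ξ → x ∈ R (Q y ξ) := fun ⟨σ, e1, e2⟩ x hx y hy ξ =>
    (h3 _ (τ.diag' σ) x (wt_pos e1 hx) y (wt_pos e2 hy) ξ).2
  have ind : ∀ (A : Ξ → Prop) (l : List L), (∀ y ∈ l, ∀ ξ, A ξ → A (Q y ξ)) → ∀ ξ, A ξ →
      A (l.foldr Q ξ) := by
    intro A l hl ξ hξ
    induction l with
    | nil => exact hξ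
    | cons y l ih =>
      exact hl y List.mem_cons_self _ (ih fun z hz => hl z (List.mem_cons_of_mem _ hz))
  have fill : ∀ (s : τ.S) (p : Module.Dual ℚ τ.S → Prop), (∀ β, p β → 0 < β s) →
      ∃ l : List L, (∀ y ∈ l, ∃ β, p β ∧ y ∈ τ.wt β) ∧ (∀ ξ, P ξ → P (l.foldr Q ξ)) ∧
        (∀ x ∈ pos (s : L), ∀ ξ, Q x (l.foldr Q ξ) = l.foldr Q (Q x ξ)) ∧
        ∀ ξ β, p β → ∀ x ∈ τ.wt β, x ∈ R (l.foldr Q ξ) := by
    intro s p hp
    obtain ⟨l, hl, hsp⟩ := exists_list_span {z : L | ∃ β, p β ∧ z ∈ τ.wt β}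
    have hpos : ∀ y ∈ l, y ∈ pos (s : L) := fun y hy =>
      let ⟨β, e1, e2⟩ := hl y hy
      wt_pos (hp β e1) e2
    refine ⟨l, hl, ind P l fun y hy ξ => ?_, fun x hx ξ => ?_, fun ξ β hβ x hx => ?_⟩
    · obtain ⟨β, e1, e2⟩ := hl y hy
      exact h4 β (ne_of_apply (hp β e1).ne') y e2 ξ
    · clear hsp hl
      induction l with
      | nil => rfl
      | cons y l ih =>
        rw [List.foldr_cons, List.foldr_cons,
          (h3 _ (τ.diag' s) x hx y (hpos y List.mem_cons_self) _).1,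
          ih fun z hz => hpos z (List.mem_cons_of_mem _ hz)]
    · have e1 : ∀ y ∈ l, y ∈ R (l.foldr Q ξ) := by
        clear hsp hl
        induction l with
        | nil => simp
        | cons y l ih =>
          intro z hz
          have hy := hpos y List.mem_cons_self
          rcases List.mem_cons.1 hz with rfl | hz'
          · exact h1 _ ((τ.diag' s).nil_of_mem_pos hy) _
          · exact (h3 _ (τ.diag' s) z (hpos z hz) y hy _).2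
              (ih (fun z hz => hpos z (List.mem_cons_of_mem _ hz)) z hz')
      have e2 : sp l ≤ clSub (hCL (l.foldr Q ξ)) (τ.diag' s) :=
        sp_le.2 fun y hy => ⟨e1 y hy, hpos y hy⟩
      exact (e2 (hsp.ge (Submodule.subset_span ⟨β, hβ, hx⟩))).1
  obtain ⟨s₀, hs₀, -⟩ := τ.exists_ker 0
  obtain ⟨α, hα0, hα1⟩ := τ.exists_wt hs₀
  have hα : α ≠ 0 := ne_of_apply hα0.ne'
  obtain ⟨X, hX, hX0⟩ := Submodule.exists_mem_ne_zero_of_ne_bot hα1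
  obtain ⟨H, Y, hY, htr, -, hp, hm⟩ := ht L τ α X hX hX0 hα
  have hH : H ≠ 0 := fun e => htr.h_ne_zero (by simp [e])
  obtain ⟨s, hs, hαs⟩ := τ.exists_ker α
  obtain ⟨l₁, -, a2, -, a4⟩ := fill s (fun β => 0 < β s) fun _ h => h
  obtain ⟨l₂, b1, b2, b3, b4⟩ := fill (-s) (fun β => β s < 0) fun _ h => by simpa using h
  obtain ⟨l₃, c1, c2, -, c4⟩ := fill s (fun β => 0 < β s ∧ β H ≠ 0) fun _ h => h.1
  let A : Ξ → Prop := fun ξ => ∀ β : Module.Dual ℚ τ.S, β ≠ 0 → β s ≤ 0 → ∀ x ∈ τ.wt β, x ∈ R ξ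
  have hA2 : A (l₂.foldr Q (l₁.foldr Q ξ₀)) := by
    intro β hβ e
    rcases e.lt_or_eq with e | e
    · exact b4 _ β e
    refine star_cl (hCL _) hs hβ e fun δ ε e1 e2 e3 a ha b hb => ?_
    rw [← h2 _ b (b4 _ ε e2 b hb), b3 b (wt_pos (β := ε) (by simpa using e2) hb)]
    refine ind (fun ξ => ⁅a, b⁆ ∈ R ξ) l₂ (fun y hy ξ => ?_) _ ?_
    · obtain ⟨κ, e4, e5⟩ := b1 y hy
      exact keep (np_ker hβ e e4.ne) _ (lie_wt ha hb e3) y e5 ξ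
    · have e4 := np_split e1.ne' hβ e e3
      exact cl_lie (hCL _) e4 ha hb (keep e4 a ha b hb _ (a4 _ δ e1 a ha))
        (h1 b (τ.nil_of_mem_wt (ne_of_apply e2.ne) hb) _)
  have hA3 : A (l₃.foldr Q (l₂.foldr Q (l₁.foldr Q ξ₀))) := by
    refine ind A l₃ (fun y hy ξ hξ β hβ e x hx => ?_) _ hA2
    obtain ⟨γ, ⟨e1, e2⟩, e3⟩ := c1 y hy
    by_cases hn : NP τ γ β
    · exact keep hn.symm x hx y e3 ξ (hξ β hβ e x hx)
    obtain ⟨c, hc, rfl⟩ : ∃ c : ℚ, 0 < c ∧ β = -(c • γ) := by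
      by_contra hc
      exact hn (τ.exists_pos_two (ne_of_apply e1.ne') hβ fun c h h' => hc ⟨c, h, h'⟩)
    have e4 : 0 < (c • γ) s := by simpa using mul_pos hc e1
    have fix : ∀ α' ε : Module.Dual ℚ τ.S, α' ≠ 0 → α' s = 0 → c • γ + ε = -α' →
        ∀ X' ∈ τ.wt α', ∀ z ∈ τ.wt ε, ⁅X', z⁆ ∈ R (Q y ξ) := by
      intro α' ε f1 f2 f3 X' hX' z hz
      have f4 : ε s < 0 := neg_of_sum e4 f3 (by simp [f2])
      obtain ⟨σ, g1, g2⟩ := np_split e4.ne' (neg_ne_zero.2 f1) (by simp [f2]) f3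
      have g3 : 0 < γ σ := by
        rw [LinearMap.smul_apply, smul_eq_mul] at g1
        exact (mul_pos_iff_of_pos_left hc).1 g1
      exact cl_lie (hCL _) (np_ker f1 f2 f4.ne) hX' hz
        (keep (np_ker f1 f2 e1.ne') X' hX' y e3 ξ (hξ α' f1 f2.le X' hX'))
        (keep ⟨σ, g2, g3⟩ z hz y e3 ξ (hξ ε (ne_of_apply f4.ne) f4.le z hz))
    have e5 : (-(c • γ)) H ≠ 0 := by simpa using ⟨hc.ne', e2⟩
    rcases lt_or_gt_of_ne e5 with e6 | e6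
    · obtain ⟨z, hz, rfl⟩ := hm _ e6 x hx
      exact fix (-α) _ (neg_ne_zero.2 hα) (by simp [hαs]) (by abel) Y hY z hz
    · obtain ⟨z, hz, rfl⟩ := hp _ e6 x hx
      exact fix α _ hα hαs (by abel) X hX z hz
  refine ⟨_, c2 _ (b2 _ (a2 _ hξ₀)), fun β hβ => ?_⟩
  have key : ∀ β : Module.Dual ℚ τ.S, β H ≠ 0 → ∀ x ∈ τ.wt β,
      x ∈ R (l₃.foldr Q (l₂.foldr Q (l₁.foldr Q ξ₀))) := fun β e => by
    rcases le_or_gt (β s) 0 with e1 | e1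
    · exact hA3 β (ne_of_apply e) e1
    · exact c4 _ β ⟨e1, e⟩
  by_cases e : β H = 0
  · exact star_cl (hCL _) hH hβ e fun δ ε e1 e2 e3 a ha b hb =>
      cl_lie (hCL _) (np_split e1.ne' hβ e e3) ha hb (key δ e1.ne' a ha) (key ε e2.ne b hb)
  · exact key β e

end Pool.Agent.MP_2b113a_an.H99
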