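import Mathlib
import Pool.Agent.MP_2b113a_an.H33.LieC

/-!
Consequences of the structure `LG` for a connected group with a simple algebra.
-/

namespace Pool.Agent.MP_2b113a_an.H99

open Pool.Agent.MP_2b113a_an.H33 Filter Topology

section Exp

variable {V : Type} [NormedAddCommGroup V] [NormedSpace ℝ V] [FiniteDimensional ℝ V]

theorem hasSum_exp (A : V →L[ℝ] V) :
    HasSum (fun n : ℕ => ((n.factorial : ℝ)⁻¹) • A ^ n) (NormedSpace.exp A) := by
  haveI : CompleteSpace V := FiniteDimensional.complete ℝ V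
  exact NormedSpace.exp_series_hasSum_exp' (𝕂 := ℝ) A

theorem hasSum_exp_apply (A : V →L[ℝ] V) (v : V) :
    HasSum (fun n : ℕ => ((n.factorial : ℝ)⁻¹) • (A ^ n) v) (NormedSpace.exp A v) := by
  simpa using (hasSum_exp A).mapL (ContinuousLinearMap.apply ℝ V v)

theorem exp_nil (A : V →L[ℝ] V) {N : ℕ} (h : A ^ N = 0) :
    NormedSpace.exp A = ∑ i ∈ Finset.range N, ((i.factorial : ℝ)⁻¹) • A ^ i := by
  refine (hasSum_exp A).unique (hasSum_sum_of_ne_finset_zero fun i hi => ?_)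
  have : N ≤ i := by simpa using hi
  rw [pow_eq_zero_of_le this h, smul_zero]

theorem exp_eig (A : V →L[ℝ] V) {v : V} {c : ℝ} (h : A v = c • v) :
    NormedSpace.exp A v = Real.exp c • v := by
  have h1 : ∀ n : ℕ, (A ^ n) v = c ^ n • v := fun n => by
    induction n with
    | zero => simp
    | succ n ih => rw [pow_succ', ContinuousLinearMap.mul_apply, ih, map_smul, h, smul_smul,
        pow_succ]
  refine (hasSum_exp_apply A v).unique ?_
  have h2 := (NormedSpace.exp_series_hasSum_exp' (𝕂 := ℝ) c).smul_const v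
  rw [Real.exp_eq_exp_ℝ]
  simpa [h1, smul_smul] using h2

theorem exp_mem (A : V →L[ℝ] V) (W : Submodule ℝ V) (h : ∀ w ∈ W, A w ∈ W) {w : V}
    (hw : w ∈ W) : NormedSpace.exp A w ∈ W := by
  have h1 : ∀ n : ℕ, (A ^ n) w ∈ W := fun n => by
    induction n with
    | zero => simpa using hw
    | succ n ih => rw [pow_succ', ContinuousLinearMap.mul_apply]; exact h _ ih
  refine W.closed_of_finiteDimensional.mem_of_tendsto (hasSum_exp_apply A w).tendsto_sum_nat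
    (Eventually.of_forall fun N => ?_)
  exact W.sum_mem fun i _ => W.smul_mem _ (h1 i)

theorem mem_of_exp (A : V →L[ℝ] V) (W : Submodule ℝ V)
    (h : ∀ t : ℝ, ∀ w ∈ W, NormedSpace.exp (t • A) w ∈ W) {w : V} (hw : w ∈ W) : A w ∈ W := by
  haveI : CompleteSpace V := FiniteDimensional.complete ℝ V
  have h1 := hasDerivAt_exp_smul_const (𝕂 := ℝ) A 0
  have h2 : HasDerivAt (fun u : ℝ => NormedSpace.exp (u • A) w) (A w) 0 := by
    simpa using h1.clm_apply (hasDerivAt_const (0 : ℝ) w)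
  refine W.closed_of_finiteDimensional.mem_of_tendsto h2.tendsto_slope_zero
    (Eventually.of_forall fun t => ?_)
  exact W.smul_mem _ (W.sub_mem (h _ w hw) (h _ w hw))

theorem exists_ps (T : Set V) (hT : ⊤ ≤ Submodule.span ℝ T) :
    ∃ ps : List (V →L[ℝ] V), ps.sum = 1 ∧ ∀ p ∈ ps, ∀ x, ∃ w ∈ T, ∃ s : ℝ, p x = s • w := by
  classical
  let b := Module.Basis.ofSpan hT
  haveI := FiniteDimensional.fintypeBasisIndex b
  refine ⟨Finset.univ.toList.map fun i =>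
    (LinearMap.toContinuousLinearMap (b.coord i)).smulRight (b i), ?_, ?_⟩
  · rw [Finset.sum_map_toList]
    ext x
    simpa [ContinuousLinearMap.sum_apply] using b.sum_repr x
  · intro p hp x
    obtain ⟨i, -, rfl⟩ := List.mem_map.1 hp
    exact ⟨b i, Module.Basis.ofSpan_subset hT ⟨i, rfl⟩, _, rfl⟩

end Exp

variable {L : Type} [LieRing L] [LieAlgebra ℚ L] {V : Type} [NormedAddCommGroup V]
  [NormedSpace ℝ V] {G : Type} [Group G] [TopologicalSpace G] (𝒢 : LG L V G)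

theorem br_jj (x y : L) : 𝒢.br (𝒢.j x) (𝒢.j y) = 𝒢.j ⁅x, y⁆ := by
  rw [𝒢.br_j, 𝒢.ext_j]; rfl

theorem mem_of_j {W : Submodule ℝ V} (h : ∀ x, 𝒢.j x ∈ W) (v : V) : v ∈ W := by
  have : Submodule.span ℝ (Set.range 𝒢.j) ≤ W := Submodule.span_le.2 (Set.range_subset_iff.2 h)
  exact this (𝒢.span_j.ge Submodule.mem_top)

theorem ext_j {A B : V →L[ℝ] V} (h : ∀ x, A (𝒢.j x) = B (𝒢.j x)) : A = B :=
  ContinuousLinearMap.ext fun v =>
    mem_of_j 𝒢 (W := LinearMap.eqLocus (A : V →ₗ[ℝ] V) (B : V →ₗ[ℝ] V)) h v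

theorem br_anti (x y : V) : 𝒢.br x y = -𝒢.br y x := by
  have h1 : ∀ a : L, 𝒢.br (𝒢.j a) = -𝒢.br.flip (𝒢.j a) := fun a => ext_j 𝒢 fun b => by
    simp only [ContinuousLinearMap.neg_apply, ContinuousLinearMap.flip_apply, br_jj]
    rw [← map_neg, lie_skew]
  have h2 : 𝒢.br.flip y = -𝒢.br y := ext_j 𝒢 fun a => by
    simp only [ContinuousLinearMap.neg_apply, ContinuousLinearMap.flip_apply]
    rw [h1]
    simp
  simpa using DFunLike.congr_fun h2 x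

theorem br_self (x : V) : 𝒢.br x x = 0 := by
  have h := br_anti 𝒢 x x
  have h2 : (2 : ℝ) • 𝒢.br x x = 0 := by rw [two_smul]; exact add_eq_zero_iff_eq_neg.2 h
  simpa using h2

theorem E_zero : 𝒢.E 0 = 1 := by
  have := 𝒢.E_add 0 0 (by simp)
  simpa using this

theorem E_smul (s t : ℝ) (x : V) : 𝒢.E ((s + t) • x) = 𝒢.E (s • x) * 𝒢.E (t • x) := by
  rw [add_smul, 𝒢.E_add _ _ (by simp [br_self])]

theorem ext_smul (c : ℚ) (T : Module.End ℚ L) : 𝒢.ext (c • T) = (c : ℝ) • 𝒢.ext T :=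
  ext_j 𝒢 fun x => by simp [𝒢.ext_j, 𝒢.j_smul]

theorem br_lie (x y : L) (w : V) :
    𝒢.br (𝒢.j ⁅x, y⁆) w = 𝒢.br (𝒢.j x) (𝒢.br (𝒢.j y) w) - 𝒢.br (𝒢.j y) (𝒢.br (𝒢.j x) w) := by
  simp only [𝒢.br_j, ad_lie, map_sub, map_mul]
  rfl

/-- The elements of the rational algebra that lie in a real subspace. -/
def pre (W : Submodule ℝ V) : Submodule ℚ L where
  carrier := {x | 𝒢.j x ∈ W}
  add_mem' := fun {a b} ha hb => by
    simp only [Set.mem_setOf_eq, map_add] at *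
    exact W.add_mem ha hb
  zero_mem' := by simp
  smul_mem' := fun c a ha => by
    simp only [Set.mem_setOf_eq, 𝒢.j_smul] at *
    exact W.smul_mem _ ha

theorem mem_pre {W : Submodule ℝ V} {x : L} : x ∈ pre 𝒢 W ↔ 𝒢.j x ∈ W := Iff.rfl

/-- The elements of the rational algebra that stabilise a real subspace. -/
def stab (W : Submodule ℝ V) : LieSubalgebra ℚ L where
  carrier := {x | ∀ w ∈ W, 𝒢.br (𝒢.j x) w ∈ W}
  add_mem' := fun {a b} ha hb w hw => by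
    simp only [map_add, ContinuousLinearMap.add_apply]
    exact W.add_mem (ha w hw) (hb w hw)
  zero_mem' := fun w hw => by simp
  smul_mem' := fun c a ha w hw => by
    simp only [𝒢.j_smul, map_smul, ContinuousLinearMap.smul_apply]
    exact W.smul_mem _ (ha w hw)
  lie_mem' := fun {a b} ha hb w hw => by
    rw [br_lie]
    exact W.sub_mem (ha _ (hb w hw)) (hb _ (ha w hw))

theorem j_ne_zero {x : L} (hx : x ≠ 0) : 𝒢.j x ≠ 0 := by
  have h1 : LinearIndependent ℚ (fun _ : Fin 1 => x) := linearIndependent_unique_iff.2 hx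
  exact (𝒢.indep 1 _ h1).ne_zero 0

variable [FiniteDimensional ℝ V]

theorem Ad_nil (x : L) (t : ℝ) (N : ℕ) (hN : ad x ^ N = 0) : 𝒢.Ad (𝒢.E (t • 𝒢.j x)) =
    ∑ i ∈ Finset.range N, (t ^ i / i.factorial) • 𝒢.ext (ad x ^ i) := by
  rw [𝒢.Ad_E, map_smul, 𝒢.br_j, exp_nil _ (N := N) (by rw [smul_pow, ← map_pow, hN]; simp)]
  refine Finset.sum_congr rfl fun i _ => ?_
  rw [smul_pow, map_pow, smul_smul, div_eq_inv_mul]

theorem Ad_ex (x : L) (hx : Nil x) : 𝒢.Ad (𝒢.E (𝒢.j x)) = 𝒢.ext (ex x) := by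
  obtain ⟨N, hN⟩ := hx
  have := Ad_nil 𝒢 x 1 N hN
  rw [one_smul] at this
  rw [this, ex_eq_sum hN, map_sum]
  refine Finset.sum_congr rfl fun i _ => ?_
  rw [ext_smul]
  simp

theorem Ad_eig (s : L) (d : ℚ) (x : L) (hx : x ∈ eig s d) (t : ℝ) :
    𝒢.Ad (𝒢.E (t • 𝒢.j s)) (𝒢.j x) = Real.exp (t * d) • 𝒢.j x := by
  rw [𝒢.Ad_E]
  refine exp_eig _ ?_
  rw [map_smul, ContinuousLinearMap.smul_apply, br_jj, mem_eig.1 hx, 𝒢.j_smul, smul_smul]

theorem stable (W : Submodule ℝ V) (x : V)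
    (h : ∀ t : ℝ, ∀ w ∈ W, 𝒢.Ad (𝒢.E (t • x)) w ∈ W) : ∀ w ∈ W, 𝒢.br x w ∈ W :=
  fun _ hw => mem_of_exp _ W (fun t w hw => by simpa [𝒢.Ad_E] using h t w hw) hw

theorem stable' (W : Submodule ℝ V) (x : V) (h : ∀ w ∈ W, 𝒢.br x w ∈ W) :
    ∀ w ∈ W, 𝒢.Ad (𝒢.E x) w ∈ W :=
  fun _ hw => by rw [𝒢.Ad_E]; exact exp_mem _ W h hw

theorem sub (S : Subgroup G) (hS : IsClosed (S : Set G)) : ∃ f : Submodule ℝ V,
    (∀ x, x ∈ f ↔ ∀ t : ℝ, 𝒢.E (t • x) ∈ S) ∧ ∀ x ∈ f, ∀ y ∈ f, 𝒢.br x y ∈ f := by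
  let f : Submodule ℝ V :=
    { carrier := {x | ∀ t : ℝ, 𝒢.E (t • x) ∈ S}
      add_mem' := fun {a b} ha hb t => by
        rw [smul_add]
        refine hS.mem_of_tendsto (𝒢.trotter _ _) (Eventually.of_forall fun k => ?_)
        refine S.pow_mem (S.mul_mem ?_ ?_) k
        · rw [smul_smul]; exact ha _
        · rw [smul_smul]; exact hb _
      zero_mem' := fun t => by rw [smul_zero, E_zero]; exact S.one_mem
      smul_mem' := fun c a ha t => by rw [smul_smul]; exact ha _ }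
  refine ⟨f, fun _ => Iff.rfl, fun x hx => stable 𝒢 f x fun t w hw s => ?_⟩
  rw [← map_smul, ← 𝒢.E_conj]
  exact S.mul_mem (S.mul_mem (hx t) (hw s)) (S.inv_mem (hx t))

theorem gen [IsTopologicalGroup G] [ConnectedSpace G] (S : Subgroup G) (Z : Set L)
    (hZ : ∀ z ∈ Z, ∀ t : ℝ, 𝒢.E (t • 𝒢.j z) ∈ S) (hg : LieSubalgebra.lieSpan ℚ L Z = ⊤) :
    S = ⊤ := by
  let T : Set V := {v | ∃ g ∈ S, ∃ z ∈ Z, v = 𝒢.Ad g (𝒢.j z)}
  let W := Submodule.span ℝ T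
  have hW : ∀ g ∈ S, ∀ w ∈ W, 𝒢.Ad g w ∈ W := fun g hg w hw => by
    have : W ≤ W.comap (𝒢.Ad g : V →ₗ[ℝ] V) := Submodule.span_le.2 (by
      rintro _ ⟨h, hh, z, hz, rfl⟩
      exact Submodule.subset_span ⟨g * h, S.mul_mem hg hh, z, hz, by simp⟩)
    exact this hw
  have h1 : stab 𝒢 W = ⊤ := top_le_iff.1 (hg.ge.trans (LieSubalgebra.lieSpan_le.2 fun z hz =>
    stable 𝒢 W _ fun t => hW _ (hZ z hz t)))
  have h2 : ∀ x : L, ∀ w ∈ W, 𝒢.br (𝒢.j x) w ∈ W := fun x =>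
    (h1.ge (LieSubalgebra.mem_top x) : x ∈ stab 𝒢 W)
  let K : LieSubalgebra ℚ L :=
    { pre 𝒢 W with
      lie_mem' := fun {a b} _ hb => by
        show 𝒢.j ⁅a, b⁆ ∈ W
        rw [← br_jj]
        exact h2 a _ hb }
  have h3 : K = ⊤ := top_le_iff.1 (hg.ge.trans (LieSubalgebra.lieSpan_le.2 fun z hz =>
    (Submodule.subset_span ⟨1, S.one_mem, z, hz, by simp⟩ : 𝒢.j z ∈ W)))
  have h4 : ⊤ ≤ W := fun v _ =>
    mem_of_j 𝒢 (fun x => (h3.ge (LieSubalgebra.mem_top x) : x ∈ K)) v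
  obtain ⟨ps, hs, hp⟩ := exists_ps T h4
  obtain ⟨N, c, hN, h1N, -, -, hc, -⟩ := 𝒢.chart ps hs
  have hNS : N ⊆ S := fun w hw => by
    rw [← hc w hw]
    refine S.list_prod_mem fun y hy => ?_
    obtain ⟨p, hp', rfl⟩ := List.mem_map.1 hy
    obtain ⟨_, ⟨g, hg, z, hz, rfl⟩, s, e⟩ := hp p hp' (c w)
    rw [e, ← map_smul, ← 𝒢.E_conj]
    exact S.mul_mem (S.mul_mem hg (hZ z hz s)) (S.inv_mem hg)
  have ho : IsOpen (S : Set G) := S.isOpen_of_mem_nhds (mem_of_superset (hN.mem_nhds h1N) hNS)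
  have hc' : IsClopen (S : Set G) := ⟨S.isClosed_of_isOpen ho, ho⟩
  exact Subgroup.coe_eq_univ.1 (hc'.eq_univ ⟨1, S.one_mem⟩)

theorem orbit [Module.Finite ℚ L] [LieAlgebra.IsSimple ℚ L] (x : L) (hx : x ≠ 0) :
    Submodule.span ℝ (Set.range fun g => 𝒢.Ad g (𝒢.j x)) = ⊤ := by
  set W := Submodule.span ℝ (Set.range fun g => 𝒢.Ad g (𝒢.j x))
  have hW : ∀ g, ∀ w ∈ W, 𝒢.Ad g w ∈ W := fun g w hw => by
    have : W ≤ W.comap (𝒢.Ad g : V →ₗ[ℝ] V) := Submodule.span_le.2 (by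
      rintro _ ⟨h, rfl⟩
      exact Submodule.subset_span ⟨g * h, by simp⟩)
    exact this hw
  have h1 : pre 𝒢 W = ⊤ := by
    refine eq_top_of_ideal (fun h => hx ?_) fun a b hb => ?_
    · have : x ∈ pre 𝒢 W := (Submodule.subset_span ⟨1, by simp⟩ : 𝒢.j x ∈ W)
      rwa [h, Submodule.mem_bot] at this
    · rw [mem_pre, ← br_jj]
      exact stable 𝒢 W _ (fun t => hW _) _ hb
  exact top_le_iff.1 fun v _ => mem_of_j 𝒢 (fun y => (h1.ge Submodule.mem_top : y ∈ pre 𝒢 W)) v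

theorem tendsto_pos (σ x : L) (hx : x ∈ pos σ) :
    Tendsto (fun t : ℝ => 𝒢.Ad (𝒢.E (t • 𝒢.j σ)) (𝒢.j x)) atBot (𝓝 0) := by
  let P : Submodule ℚ L :=
    { carrier := {x | Tendsto (fun t : ℝ => 𝒢.Ad (𝒢.E (t • 𝒢.j σ)) (𝒢.j x)) atBot (𝓝 0)}
      add_mem' := fun {a b} ha hb => by
        simpa [map_add] using Tendsto.add ha hb
      zero_mem' := by simp
      smul_mem' := fun c a ha => by
        simpa [𝒢.j_smul] using Tendsto.const_smul ha (c : ℝ) }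
  have : pos σ ≤ P := fil_le (p := (0 < ·)) fun c hc y hy => by
    show Tendsto _ _ _
    simp only [Ad_eig 𝒢 σ c y hy]
    have h1 : Tendsto (fun t : ℝ => Real.exp (t * c)) atBot (𝓝 0) :=
      Real.tendsto_exp_atBot.comp (tendsto_id.atBot_mul_const (by exact_mod_cast hc))
    simpa using h1.smul_const (𝒢.j y)
  exact this hx

theorem unip [IsTopologicalGroup G] [T2Space G] [Module.Finite ℚ L] (σ : L) (hσ : Diag σ)
    (l : List L) (hl : ∀ x ∈ l, x ∈ pos σ) (h : (l.map ex).prod = 1) :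
    (l.map fun x => 𝒢.E (𝒢.j x)).prod = 1 := by
  have h1 : ∀ l : List L, (∀ x ∈ l, x ∈ pos σ) →
      𝒢.Ad (l.map fun x => 𝒢.E (𝒢.j x)).prod = 𝒢.ext (l.map ex).prod ∧
      Tendsto (fun t : ℝ => 𝒢.E (t • 𝒢.j σ) * (l.map fun x => 𝒢.E (𝒢.j x)).prod *
        (𝒢.E (t • 𝒢.j σ))⁻¹) atBot (𝓝 1) := by
    intro l hl
    induction l with
    | nil => simp
    | cons x l ih =>
      obtain ⟨i1, i2⟩ := ih fun y hy => hl y (List.mem_cons_of_mem _ hy)
      have hx := hl x List.mem_cons_self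
      refine ⟨by simp only [List.map_cons, List.prod_cons, map_mul, i1,
        Ad_ex 𝒢 x (hσ.nil_of_mem_pos hx)], ?_⟩
      have i3 := (𝒢.cont_E.tendsto 0).comp (tendsto_pos 𝒢 σ x hx)
      rw [E_zero] at i3
      have i4 := i3.mul i2
      rw [mul_one] at i4
      refine i4.congr fun t => ?_
      simp only [Function.comp, List.map_cons, List.prod_cons, ← 𝒢.E_conj]
      group
  obtain ⟨h2, h3⟩ := h1 l hl
  rw [h, map_one] at h2
  simp only [𝒢.ker_comm _ _ h2, mul_inv_cancel_right] at h3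
  exact tendsto_nhds_unique tendsto_const_nhds h3

theorem facts : FactsStmt := fun _ _ _ _ _ _ _ _ _ _ _ _ _ _ _ 𝒢 =>
  { br_self := br_self 𝒢
    E_zero := E_zero 𝒢
    E_smul := E_smul 𝒢
    Ad_nil := fun x _ => Ad_nil 𝒢 x
    Ad_ex := Ad_ex 𝒢
    Ad_eig := Ad_eig 𝒢
    stable := stable 𝒢
    stable' := stable' 𝒢
    sub := sub 𝒢
    gen := gen 𝒢
    orbit := orbit 𝒢
    unip := unip 𝒢 }

end Pool.Agent.MP_2b113a_an.H99
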