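import Mathlib
import Pool.Agent.MP_2b113a_an.H99.Win3A

/-!
The posterior law of the displacement and the narrow case along an orbit.
-/

namespace Pool.Agent.MP_2b113a_an.H99

open MeasureTheory ProbabilityTheory Filter Topology
open scoped ENNReal NNReal Real
open Pool.Agent.MP_2b113a_an.C3

variable {Ω : Type} [MeasurableSpace Ω] {M : Measure Ω} (F : NSFlow Ω M)

@[fun_prop] lemma measurable_hh (a b c : ℝ≥0) : Measurable (F.hh a b c) :=
  F.measurable_cv measurable_const _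

lemma hh_ne_zero (a b c : ℝ≥0) (y : Ω) : F.hh a b c y ≠ 0 := F.cv_one_ne_zero _ y

lemma hh_cv {a b c a' b' c' : ℝ≥0} (ha : a ≤ a') (hb : b ≤ b') (hc : c ≤ c') :
    F.hh a' b' c' = F.cv (F.hh a b c) (N3 (a' - a) (b' - b) (c' - c)) := by
  rw [NSFlow.hh, NSFlow.hh, F.cv_cv measurable_const, add_tsub_cancel_of_le ha,
    add_tsub_cancel_of_le hb, add_tsub_cancel_of_le hc]

lemma lintegral_hh [IsProbabilityMeasure M] (a b c : ℝ≥0) : ∫⁻ y, F.hh a b c y ∂M = 1 := by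
  rw [NSFlow.hh, F.lintegral_cv_prob measurable_const]; simp

lemma rep_hh {R : T3 ≃ₗ[ℝ] T3} (h : Orth R) (t : ℝ≥0) : (F.rep R).hh t t t = F.hh t t t :=
  F.rep_cv h measurable_const t

/-- The posterior law of the displacement. -/
noncomputable def post (lo σ : ℝ≥0) (y : Ω) : Measure T3 :=
  (N3 (σ - lo) (σ - lo) (σ - lo)).withDensity fun u => F.tl (F.hh lo lo lo) y u / F.hh σ σ σ y

lemma mul_post {lo σ : ℝ≥0} {y : Ω} (h1 : F.hh σ σ σ y ≠ ∞) {g : T3 → ℝ≥0∞}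
    (hg : Measurable g) : F.hh σ σ σ y * ∫⁻ u, g u ∂post F lo σ y =
      ∫⁻ u, F.tl (F.hh lo lo lo) y u * g u ∂N3 (σ - lo) (σ - lo) (σ - lo) := by
  rw [post, lintegral_withDensity_eq_lintegral_mul _ (by fun_prop) hg,
    ← lintegral_const_mul' _ _ h1]
  refine lintegral_congr fun u => ?_
  rw [Pi.mul_apply, ← mul_assoc, ENNReal.mul_div_cancel (hh_ne_zero F _ _ _ y) h1]

lemma post_prob {lo σ : ℝ≥0} (h : lo ≤ σ) {y : Ω} (h1 : F.hh σ σ σ y ≠ ∞) :
    IsProbabilityMeasure (post F lo σ y) := by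
  have h2 := mul_post F (lo := lo) h1 (g := fun _ => 1) measurable_const
  simp only [mul_one, lintegral_one] at h2
  rw [← NSFlow.cv, ← hh_cv F h h h] at h2
  exact ⟨(ENNReal.mul_right_inj (hh_ne_zero F _ _ _ y) h1).1 (by rw [h2, mul_one])⟩

lemma dep_post {lo σ : ℝ≥0} (h : lo ≤ σ) {y : Ω} (h1 : F.hh σ σ σ y ≠ ∞) {δ : ℝ} (hδ : 0 ≤ δ)
    (hd : F.dep (fun _ => 1) lo σ lo σ lo σ y ≤ ENNReal.ofReal δ * F.hh σ σ σ y) :
    Dep (post F lo σ y) δ := by
  refine dep_of (x := F.tl (F.hh lo lo lo) y) (by fun_prop) ?_ (hh_ne_zero F _ _ _ y) h1 hδ ?_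
  · rw [hh_cv F h h h]; rfl
  · refine le_trans (le_of_eq (lintegral_congr fun u => ?_)) hd
    have e1 : F.tl (F.hh lo σ σ) y (u.1, 0) =
        ∫⁻ b, F.tl (F.hh lo lo lo) y (u.1, b) ∂H83.N2 (σ - lo) (σ - lo) := by
      rw [hh_cv F le_rfl h h, F.tl_cv, tsub_self, lintegral_N3_right _ _ (by fun_prop)]
      simp
    have e2 : F.tl (F.hh σ lo lo) y (0, u.2) =
        ∫⁻ a, F.tl (F.hh lo lo lo) y (a, u.2) ∂gaussianReal 0 (σ - lo) := by
      rw [hh_cv F h le_rfl le_rfl, F.tl_cv, tsub_self, lintegral_N3_left _ (by fun_prop)]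
      simp
    rw [← e1, ← e2]
    rfl

lemma post_rep {R : T3 ≃ₗ[ℝ] T3} (h : Orth R) (lo σ : ℝ≥0) (y : Ω) :
    post (F.rep R) lo σ y = (post F lo σ y).map R.symm := by
  refine Measure.ext_of_lintegral _ fun f hf => ?_
  rw [lintegral_map hf (by fun_prop), post, post,
    lintegral_withDensity_eq_lintegral_mul _ (by fun_prop) hf,
    lintegral_withDensity_eq_lintegral_mul _ (by fun_prop) (by fun_prop),
    ← h.lintegral_N3 _ (f := (fun u => F.tl (F.hh lo lo lo) y u / F.hh σ σ σ y) *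
      fun u => f (R.symm u)) (by fun_prop)]
  simp only [Pi.mul_apply, rep_hh F h, F.rep_tl, R.symm_apply_apply]

/-- The second moment of the small displacement. -/
noncomputable def mom (lo σ : ℝ≥0) (y : Ω) : ℝ≥0∞ :=
  ∫⁻ u, ∫⁻ ζ, F.W (ζ + u) y * ENNReal.ofReal (nsq ζ) ∂N3 lo lo lo ∂N3 (σ - lo) (σ - lo) (σ - lo)

/-- The ratio of the orbit masses at two scales. -/
noncomputable def rat (s σ : ℝ) (x : Ω) : ℝ≥0∞ := (F.ms (σ / 2) x)⁻¹ * F.ms s x

@[fun_prop] lemma measurable_mom (lo σ : ℝ≥0) : Measurable (mom F lo σ) := by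
  unfold mom; fun_prop

@[fun_prop] lemma measurable_rat (s σ : ℝ) : Measurable (rat F s σ) := by
  unfold rat; fun_prop

lemma far_mass {lo σ v e M₀ : ℝ≥0} {m : T3} {y : Ω} (h : lo ≤ σ) (h1 : F.hh σ σ σ y ≠ ∞)
    (hN : Near (post F lo σ y) lo m v e) (hm : mom F lo σ y ≤ M₀ * lo * F.hh σ σ σ y) {r : ℝ}
    (hr : 0 < r) :
    ∫⁻ z, F.W z y * {u : T3 | 4 * (4 * r) < nsq (u - m)}.indicator 1 z ∂N3 σ σ σ ≤
      F.hh σ σ σ y * (ENNReal.ofReal r⁻¹ * (3 * v + 3 * lo) + e +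
        ENNReal.ofReal (4 * r)⁻¹ * (M₀ * lo)) := by
  have := post_prob F h h1
  have mi : ∀ t : ℝ, Measurable ({u : T3 | t < nsq (u - m)}.indicator (1 : T3 → ℝ≥0∞)) :=
    fun t => measurable_one.indicator (measurableSet_far m t)
  have m1 := mi (4 * (4 * r))
  have m2 := mi (4 * r)
  have e0 : N3 σ σ σ = N3 ((σ - lo) + lo) ((σ - lo) + lo) ((σ - lo) + lo) := by rw [tsub_add_cancel_of_le h]
  rw [e0, ← lintegral_convN _ _ _ _ _ _ (by fun_prop), mul_add]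
  calc _ ≤ ∫⁻ u, F.tl (F.hh lo lo lo) y u * {u : T3 | 4 * r < nsq (u - m)}.indicator 1 u +
        ENNReal.ofReal (4 * r)⁻¹ * ∫⁻ ζ, F.W (ζ + u) y * ENNReal.ofReal (nsq ζ) ∂N3 lo lo lo
          ∂N3 (σ - lo) (σ - lo) (σ - lo) := by
        refine lintegral_mono fun u => ?_
        rw [NSFlow.hh, F.tl_cv, ← lintegral_mul_const _ (by fun_prop),
          ← lintegral_const_mul _ (by fun_prop), ← lintegral_add_left (by fun_prop)]
        refine lintegral_mono fun ζ => ?_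
        rw [F.tl_one, mul_left_comm (ENNReal.ofReal _), ← mul_add, add_comm ζ u]
        exact mul_le_mul_right (far_le m u ζ (by positivity)) _
    _ ≤ _ := by
        rw [lintegral_add_left (by fun_prop), lintegral_const_mul _ (by fun_prop),
          ← mul_post F h1 m2]
        refine add_le_add (mul_le_mul_right (hN.narrow hr) _) ?_
        exact (mul_le_mul_right hm _).trans (le_of_eq (by ring))

lemma near_mass {lo σ v e M₀ s : ℝ≥0} {m : T3} {y : Ω} (h : lo ≤ σ) (h1 : F.hh σ σ σ y ≠ ∞)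
    (hN : Near (post F lo σ y) lo m v e) (hm : mom F lo σ y ≤ M₀ * lo * F.hh σ σ σ y)
    (hs : s ≠ 0) (hv : v ≤ s) (hlo : lo ≤ s) (he : e ≤ 4⁻¹) :
    4⁻¹ * F.hh σ σ σ y ≤
      ∫⁻ z, F.W z y * {u : T3 | nsq (u - m) ≤ 16 * ((M₀ + 12) * s)}.indicator 1 z ∂N3 σ σ σ := by
  have hs' : (0 : ℝ) < s := by positivity
  have hr : (0 : ℝ) < (M₀ + 12) * s := by positivity
  have h2 := far_mass F h h1 hN hm hr
  have h3 : ENNReal.ofReal ((M₀ + 12) * s : ℝ)⁻¹ * (3 * v + 3 * lo) + e +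
      ENNReal.ofReal (4 * ((M₀ + 12) * s : ℝ))⁻¹ * (M₀ * lo) ≤ ((3 / 4 : ℝ≥0) : ℝ≥0∞) := by
    have e1 : (3 * v + 3 * lo : ℝ≥0∞) = ENNReal.ofReal (3 * v + 3 * lo) := by
      rw [ENNReal.ofReal_add (by positivity) (by positivity), ENNReal.ofReal_mul zero_le_three,
        ENNReal.ofReal_mul zero_le_three]
      simp
    have e2 : (M₀ * lo : ℝ≥0∞) = ENNReal.ofReal (M₀ * lo) := by
      rw [ENNReal.ofReal_mul M₀.coe_nonneg]
      simp
    rw [e1, e2, ← ENNReal.ofReal_coe_nnreal (p := e), ← ENNReal.ofReal_mul (by positivity),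
      ← ENNReal.ofReal_mul (by positivity), ← ENNReal.ofReal_add (by positivity) (by positivity),
      ← ENNReal.ofReal_add (by positivity) (by positivity), ← ENNReal.ofReal_coe_nnreal]
    refine ENNReal.ofReal_le_ofReal ?_
    have a1 : (v : ℝ) ≤ s := hv
    have a2 : (lo : ℝ) ≤ s := hlo
    have a3 : (e : ℝ) ≤ 4⁻¹ := by exact_mod_cast he
    have a4 : (0 : ℝ) ≤ M₀ := M₀.2
    have b1 : ((M₀ + 12) * s : ℝ)⁻¹ * (3 * v + 3 * lo) + (4 * ((M₀ + 12) * s : ℝ))⁻¹ * (M₀ * lo) ≤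
        1 / 2 := by
      rw [mul_inv (4 : ℝ), mul_comm (4 : ℝ)⁻¹, mul_assoc _ (4 : ℝ)⁻¹, ← mul_add, ← div_eq_inv_mul,
        div_le_iff₀ hr]
      nlinarith [mul_le_mul_of_nonneg_left a2 a4]
    push_cast
    linarith
  have mi : Measurable ({u : T3 | 4 * (4 * ((M₀ + 12) * s : ℝ)) < nsq (u - m)}.indicator
      (1 : T3 → ℝ≥0∞)) := measurable_one.indicator (measurableSet_far m _)
  have h4 : F.hh σ σ σ y = ∫⁻ z, F.W z y *
      {u : T3 | nsq (u - m) ≤ 16 * ((M₀ + 12) * s)}.indicator 1 z ∂N3 σ σ σ + ∫⁻ z, F.W z y *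
      {u : T3 | 4 * (4 * ((M₀ + 12) * s : ℝ)) < nsq (u - m)}.indicator 1 z ∂N3 σ σ σ := by
    rw [← lintegral_add_right _ (by fun_prop)]
    refine lintegral_congr fun z => ?_
    rw [F.tl_one, ← mul_add]
    by_cases hz : nsq (z - m) ≤ 16 * ((M₀ + 12) * s)
    · rw [Set.indicator_of_mem (by exact hz), Set.indicator_of_notMem (by
        simp only [Set.mem_ofPred_eq, not_lt]; linarith)]
      simp
    · rw [Set.indicator_of_notMem (by exact hz), Set.indicator_of_mem (by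
        simp only [Set.mem_ofPred_eq]; linarith)]
      simp
  have h5 := h4.le.trans (add_le_add_right (h2.trans (mul_le_mul_right h3 _)) _)
  have h6 : F.hh σ σ σ y = 4⁻¹ * F.hh σ σ σ y + F.hh σ σ σ y * ((3 / 4 : ℝ≥0) : ℝ≥0∞) := by
    rw [mul_comm (F.hh σ σ σ y), ← add_mul]
    have : (4⁻¹ : ℝ≥0∞) + ((3 / 4 : ℝ≥0) : ℝ≥0∞) = 1 := by
      rw [show (4⁻¹ : ℝ≥0∞) = ((4⁻¹ : ℝ≥0) : ℝ≥0∞) by simp, ← ENNReal.coe_add, ← ENNReal.coe_one]
      congr 1; norm_num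
    rw [this, one_mul]
  exact (ENNReal.add_le_add_iff_right (ENNReal.mul_ne_top h1 ENNReal.coe_ne_top)).1
    (h6.symm.le.trans h5)

lemma rat_ge {σ s : ℝ≥0} {m : T3} {y : Ω} (hσ : σ ≠ 0) (hs : s ≠ 0) (h1 : F.hh σ σ σ y ≠ ∞)
    {ρ C : ℝ} (hB : 4⁻¹ * F.hh σ σ σ y ≤
      ∫⁻ z, F.W z y * {u : T3 | nsq (u - m) ≤ ρ * s}.indicator 1 z ∂N3 σ σ σ)
    {z : T3} (hz : nsq (z - m) ≤ ρ * s) (hz' : nsq z ≤ C * σ) :
    ENNReal.ofReal (Real.exp (-(2 * ρ + C))) * 4⁻¹ ≤ rat F s σ (F.τ z y) := by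
  have hs' : (0 : ℝ) < s := by positivity
  have hσ' : (0 : ℝ) < σ := by positivity
  have mi : Measurable ({u : T3 | nsq (u - m) ≤ ρ * s}.indicator (1 : T3 → ℝ≥0∞)) :=
    measurable_one.indicator (measurableSet_le (by fun_prop) measurable_const)
  have l1 : ENNReal.ofReal (Real.exp (-(2 * ρ))) * (ENNReal.ofReal (zz σ) *
      (4⁻¹ * F.hh σ σ σ y)) ≤ F.ms s (F.τ z y) * F.W z y := by
    refine (mul_le_mul_right (mul_le_mul_right hB _) _).trans ?_
    rw [← lintegral_mul_bmp hσ (by fun_prop), NSFlow.ms, F.nm_τ,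
      ← lintegral_const_mul _ (by fun_prop)]
    refine lintegral_mono fun u => ?_
    rw [F.tl_one, mul_assoc, mul_left_comm]
    refine mul_le_mul_right ?_ _
    by_cases hu : nsq (u - m) ≤ ρ * s
    · rw [Set.indicator_of_mem (by exact hu), Pi.one_apply, one_mul]
      refine (mul_le_mul_right (bmp_le_one hσ' u) _).trans ?_
      rw [mul_one, bmp]
      refine ENNReal.ofReal_le_ofReal (Real.exp_le_exp.2 ?_)
      have := nsq_add_le (u - m) (m - z)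
      rw [sub_add_sub_cancel, nsq_sub_comm m z] at this
      rw [le_div_iff₀ (by positivity)]
      linarith
    · rw [Set.indicator_of_notMem (by exact hu)]
      simp
  have l2 : F.ms (σ / 2) (F.τ z y) * F.W z y ≤
      ENNReal.ofReal (Real.exp C) * (ENNReal.ofReal (zz σ) * F.hh σ σ σ y) := by
    rw [NSFlow.hh, ← F.nm_bmp measurable_const hσ, ← F.nm_const_mul measurable_const (by fun_prop),
      NSFlow.ms, F.nm_τ]
    refine lintegral_mono fun u => mul_le_mul_right ?_ _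
    simp only [bmp]
    rw [← ENNReal.ofReal_mul (by positivity), ← Real.exp_add]
    refine ENNReal.ofReal_le_ofReal (Real.exp_le_exp.2 ?_)
    have := nsq_add_le (u - z) z
    rw [sub_add_cancel] at this
    rw [div_le_iff₀ (by positivity)]
    have e1 : (C + -nsq u / (2 * σ)) * (2 * (σ / 2)) = C * σ - nsq u / 2 := by field_simp; ring
    rw [e1]
    linarith
  have f1 : F.ms (σ / 2) (F.τ z y) ≠ ∞ := by
    intro h
    rw [h, ENNReal.top_mul (F.W_ne_zero _ _), top_le_iff] at l2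
    exact ENNReal.mul_ne_top ENNReal.ofReal_ne_top (ENNReal.mul_ne_top ENNReal.ofReal_ne_top h1) l2
  rw [rat, ← ENNReal.div_eq_inv_mul, ENNReal.le_div_iff_mul_le (Or.inl (F.ms_ne_zero _ _))
    (Or.inl f1), ← ENNReal.mul_le_mul_iff_left (F.W_ne_zero z y) (F.W_ne_top z y), mul_assoc]
  refine (mul_le_mul_right l2 _).trans (le_trans (le_of_eq ?_) l1)
  have e2 : ENNReal.ofReal (Real.exp (-(2 * ρ + C))) * ENNReal.ofReal (Real.exp C) =
      ENNReal.ofReal (Real.exp (-(2 * ρ))) := by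
    rw [← ENNReal.ofReal_mul (by positivity), ← Real.exp_add]
    congr 2; ring
  rw [← e2]; ring

/-- The constant of the narrow case. -/
noncomputable def cst (M₀ : ℝ≥0) : ℝ≥0∞ :=
  ENNReal.ofReal (Real.exp (-(68 * M₀ + 776))) * 4⁻¹ * 4⁻¹

lemma cst_ne_zero (M₀ : ℝ≥0) : cst M₀ ≠ 0 := by
  simp [cst, Real.exp_pos]

lemma cst_ne_top (M₀ : ℝ≥0) : cst M₀ ≠ ∞ :=
  ENNReal.mul_ne_top (ENNReal.mul_ne_top ENNReal.ofReal_ne_top (by simp)) (by simp)

lemma narrow_case {lo σ v e M₀ s : ℝ≥0} {m : T3} {y : Ω} (h1 : F.hh σ σ σ y ≠ ∞)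
    (hN : Near (post F lo σ y) lo m v e) (hm : mom F lo σ y ≤ M₀ * lo * F.hh σ σ σ y)
    (hs : s ≠ 0) (hv : v ≤ s) (hlo : lo ≤ s) (hsσ : s ≤ σ) (he : e ≤ 4⁻¹)
    (hmm : nsq m ≤ (2 * M₀ + 4) * σ) :
    cst M₀ * F.hh σ σ σ y ≤ F.cv (rat F s σ) (N3 σ σ σ) y := by
  have hσ : σ ≠ 0 := fun h => hs (le_antisymm (h ▸ hsσ) zero_le)
  have h2 := near_mass F (hlo.trans hsσ) h1 hN hm hs hv hlo he
  simp_rw [← mul_assoc (16 : ℝ)] at h2
  have mi : Measurable ({u : T3 | nsq (u - m) ≤ 16 * (M₀ + 12) * s}.indicator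
      (1 : T3 → ℝ≥0∞)) :=
    measurable_one.indicator (measurableSet_le (by fun_prop) measurable_const)
  rw [cst, mul_assoc _ _ (F.hh σ σ σ y)]
  refine (mul_le_mul_right h2 _).trans ?_
  rw [← lintegral_const_mul _ (by fun_prop)]
  refine lintegral_mono fun z => ?_
  by_cases hz : nsq (z - m) ≤ 16 * (M₀ + 12) * s
  · rw [Set.indicator_of_mem (by exact hz), Pi.one_apply, mul_one, NSFlow.tl]
    refine mul_le_mul_left (le_trans (le_of_eq ?_)
      (rat_ge F (C := 36 * M₀ + 392) hσ hs h1 h2 hz ?_)) _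
    · congr 3; ring
    · have a1 := nsq_add_le (z - m) m
      rw [sub_add_cancel] at a1
      have a2 : (s : ℝ) ≤ σ := hsσ
      have a3 : nsq m ≤ (2 * M₀ + 4) * σ := hmm
      have a4 : (0 : ℝ) ≤ M₀ := M₀.2
      nlinarith [mul_le_mul_of_nonneg_left a2 a4]
  · rw [Set.indicator_of_notMem (by exact hz)]
    simp

end Pool.Agent.MP_2b113a_an.H99
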