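import Mathlib
import Pool.Agent.MP_2b113a_an.H99.Win3B

/-!
The window step in three dimensions: `RigidStmt → WinStmt`.
-/

namespace Pool.Agent.MP_2b113a_an.H99

open MeasureTheory ProbabilityTheory Filter Topology
open scoped ENNReal NNReal Real
open Pool.Agent.MP_2b113a_an.C3

variable {Ω : Type} [MeasurableSpace Ω] {M : Measure Ω} (F : NSFlow Ω M)

/-- Gaussian average of a function along an orbit. -/
noncomputable def wavg (φ : Ω → ℝ≥0∞) (a b c : ℝ≥0) (x : Ω) : ℝ≥0∞ :=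
  ∫⁻ q, φ (F.τ q x) ∂N3 a b c

@[fun_prop] lemma measurable_wavg {φ : Ω → ℝ≥0∞} (hφ : Measurable φ) (a b c : ℝ≥0) :
    Measurable (wavg F φ a b c) := by
  unfold wavg; fun_prop

lemma lintegral_wavg [SFinite M] {φ : Ω → ℝ≥0∞} (hφ : Measurable φ) {lo a b c : ℝ≥0}
    (ha : lo ≤ a) (hb : lo ≤ b) (hc : lo ≤ c) :
    ∫⁻ x, F.hh lo lo lo x * wavg F φ (a - lo) (b - lo) (c - lo) x ∂M =
      ∫⁻ x, φ x * F.hh a b c x ∂M := by
  rw [hh_cv F ha hb hc, F.lintegral_mul_cv (by fun_prop) hφ]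
  refine lintegral_congr fun x => ?_
  rw [wavg, lintegral_N3_neg _ _ _ (f := fun q => φ (F.τ q x)) (by fun_prop)]

/-- The second moment of the displacement. -/
noncomputable def mom1 (lo σ : ℝ≥0) (y : Ω) : ℝ≥0∞ :=
  ∫⁻ u, F.tl (F.hh lo lo lo) y u * ENNReal.ofReal (nsq u) ∂N3 (σ - lo) (σ - lo) (σ - lo)

@[fun_prop] lemma measurable_mom1 (lo σ : ℝ≥0) : Measurable (mom1 F lo σ) := by
  unfold mom1; fun_prop

@[fun_prop] lemma measurable_dep (a a' b b' c c' : ℝ≥0) :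
    Measurable (F.dep (fun _ => 1) a a' b b' c c') := by
  unfold NSFlow.dep; fun_prop

lemma lintegral_mom1 [IsProbabilityMeasure M] (lo σ : ℝ≥0) :
    ∫⁻ y, mom1 F lo σ y ∂M ≤ 3 * σ := by
  simp only [mom1]
  rw [lintegral_lintegral_swap (by fun_prop)]
  have : ∀ u, ∫⁻ y, F.tl (F.hh lo lo lo) y u * ENNReal.ofReal (nsq u) ∂M =
      ENNReal.ofReal (nsq u) := fun u => by
    rw [lintegral_mul_const _ (by fun_prop), F.lintegral_tl (by fun_prop), lintegral_hh, one_mul]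
  simp_rw [this]
  rw [lintegral_nsq_N3, three_mul']
  gcongr <;> exact tsub_le_self

lemma lintegral_mom [IsProbabilityMeasure M] (lo σ : ℝ≥0) :
    ∫⁻ y, mom F lo σ y ∂M = 3 * lo := by
  simp only [mom]
  rw [lintegral_lintegral_swap (by fun_prop)]
  have : ∀ u, ∫⁻ y, ∫⁻ ζ, F.W (ζ + u) y * ENNReal.ofReal (nsq ζ) ∂N3 lo lo lo ∂M = 3 * lo :=
    fun u => by
      rw [lintegral_lintegral_swap (by fun_prop), three_mul', ← lintegral_nsq_N3]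
      refine lintegral_congr fun ζ => ?_
      have h := F.lintegral_tl (X := fun _ => 1) measurable_const (ζ + u)
      simp only [F.tl_one, lintegral_one, measure_univ] at h
      rw [lintegral_mul_const _ (by fun_prop), h, one_mul]
  simp [this]

/-- The posterior law is nearly Gaussian where the defect `D` is small. -/
def Rig (D : Ω → ℝ≥0∞) (lo σ M₀ e : ℝ≥0) (δ : ℝ) : Prop :=
  ∀ y, F.hh σ σ σ y ≠ ∞ → ∫⁻ u, ENNReal.ofReal (nsq u) ∂post F lo σ y ≤ (M₀ * σ : ℝ≥0) →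
    D y ≤ ENNReal.ofReal δ * F.hh σ σ σ y →
    ∃ (m : T3) (v : ℝ≥0), v ≠ 0 ∧ nsq m ≤ (2 * M₀ + 4) * σ ∧ Near (post F lo σ y) lo m v e

lemma Rig.rep {D : Ω → ℝ≥0∞} {lo σ M₀ e : ℝ≥0} {δ : ℝ} (h : Rig F D lo σ M₀ e δ)
    {R : T3 ≃ₗ[ℝ] T3} (hR : Orth R) : Rig (F.rep R) D lo σ M₀ e δ := by
  intro y h1 h2 h3
  rw [rep_hh F hR] at h1 h3
  rw [post_rep F hR, lintegral_map (by fun_prop) (by fun_prop)] at h2
  simp only [hR.symm _] at h2
  obtain ⟨m, v, a1, a2, a3⟩ := h y h1 h2 h3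
  refine ⟨R.symm m, v, a1, by rwa [hR.symm m], ?_⟩
  rw [post_rep F hR]
  exact a3.map a1 hR.symm

lemma point {D : Ω → ℝ≥0∞} {lo σ t A a b c a' b' c' M₀ e : ℝ≥0} {δ : ℝ}
    (hδ : 0 < δ) (hlo : lo ≠ 0) (hM : M₀ ≠ 0) (hlt : lo ≤ t) (htσ : t ≤ σ)
    (ha : 2 * lo ≤ a ∧ a ≤ A) (hb : 2 * lo ≤ b ∧ b ≤ A) (hc : 2 * lo ≤ c ∧ c ≤ A)
    (ha' : 2 * lo ≤ a' ∧ a' ≤ A) (hb' : 2 * lo ≤ b' ∧ b' ≤ A) (hc' : 2 * lo ≤ c' ∧ c' ≤ A)
    (hA : A ≤ e * t) (he : e ≤ 4⁻¹) (hR : Rig F D lo σ M₀ e δ)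
    {φ ψ : Ω → ℝ≥0∞} (hφ : Measurable φ) (hψ : Measurable ψ) (h2 : ∀ x, φ x + ψ x ≤ 1) {y : Ω}
    (h1 : F.hh σ σ σ y ≠ ∞) :
    F.cv (fun x => F.hh lo lo lo x * (wavg F φ (a - lo) (b - lo) (c - lo) x +
      wavg F ψ (a' - lo) (b' - lo) (c' - lo) x)) (N3 (σ - lo) (σ - lo) (σ - lo)) y ≤
      (1 + 5 * e) * F.hh σ σ σ y +
      2 * (((M₀ * σ : ℝ≥0) : ℝ≥0∞)⁻¹ * mom1 F lo σ y + ((M₀ * lo : ℝ≥0) : ℝ≥0∞)⁻¹ * mom F lo σ y +
        (ENNReal.ofReal δ)⁻¹ * D y + (cst M₀)⁻¹ * F.cv (rat F t σ) (N3 σ σ σ) y) := by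
  have hlσ := hlt.trans htσ
  have ht : t ≠ 0 := fun h => hlo (le_antisymm (h ▸ hlt) zero_le)
  have hσ : σ ≠ 0 := fun h => ht (le_antisymm (h ▸ htσ) zero_le)
  have := post_prob F hlσ h1
  have φ1 : ∀ x, φ x ≤ 1 := fun x => le_self_add.trans (h2 x)
  have ψ1 : ∀ x, ψ x ≤ 1 := fun x => le_add_self.trans (h2 x)
  have eD : F.cv (fun x => F.hh lo lo lo x * (wavg F φ (a - lo) (b - lo) (c - lo) x +
      wavg F ψ (a' - lo) (b' - lo) (c' - lo) x)) (N3 (σ - lo) (σ - lo) (σ - lo)) y =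
      F.hh σ σ σ y *
        (∫⁻ z, ∫⁻ q, φ (F.τ (z + q) y) ∂N3 (a - lo) (b - lo) (c - lo) ∂post F lo σ y +
        ∫⁻ z, ∫⁻ q, ψ (F.τ (z + q) y) ∂N3 (a' - lo) (b' - lo) (c' - lo) ∂post F lo σ y) := by
    rw [← lintegral_add_left (by fun_prop), mul_post F h1 (by fun_prop)]
    refine lintegral_congr fun u => ?_
    simp only [NSFlow.tl, wavg, ← F.τ_add, add_comm u]
    ring
  rw [eD]
  set P := F.hh σ σ σ y with hP
  by_cases hbad : P ≤ ((M₀ * σ : ℝ≥0) : ℝ≥0∞)⁻¹ * mom1 F lo σ y +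
      ((M₀ * lo : ℝ≥0) : ℝ≥0∞)⁻¹ * mom F lo σ y +
        (ENNReal.ofReal δ)⁻¹ * D y + (cst M₀)⁻¹ * F.cv (rat F t σ) (N3 σ σ σ) y
  · refine le_add_left (le_trans ?_ (mul_le_mul_right hbad _))
    rw [mul_comm, ← one_add_one_eq_two]
    gcongr
    · exact (lintegral_mono fun z => lintegral_mono fun q => φ1 _).trans (by simp)
    · exact (lintegral_mono fun z => lintegral_mono fun q => ψ1 _).trans (by simp)
  refine le_add_right ?_
  have d0 : ENNReal.ofReal δ ≠ 0 := by simpa using hδ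
  have g1 := H46.le_mul_of_not (by simp [hM, hσ]) ENNReal.coe_ne_top fun h =>
    hbad (h.trans (le_add_right (le_add_right le_self_add)))
  have g2 := H46.le_mul_of_not (by simp [hM, hlo]) ENNReal.coe_ne_top fun h =>
    hbad (h.trans (le_add_right (le_add_right le_add_self)))
  have g3 := H46.le_mul_of_not d0 ENNReal.ofReal_ne_top fun h =>
    hbad (h.trans (le_add_right le_add_self))
  have k1 : ∫⁻ u, ENNReal.ofReal (nsq u) ∂post F lo σ y ≤ (M₀ * σ : ℝ≥0) := by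
    rw [← ENNReal.mul_le_mul_iff_right (hh_ne_zero F σ σ σ y) h1, mul_post F h1 (by fun_prop),
      mul_comm]
    exact g1
  obtain ⟨m, v, hv, hm, hN⟩ := hR y h1 k1 g3
  rcases le_total v t with hvt | hvt
  · refine absurd (le_add_left ?_) hbad
    have := narrow_case F h1 hN (by simpa using g2) ht hvt hlt htσ he hm
    have h3 := mul_le_mul_right this (cst M₀)⁻¹
    rwa [← mul_assoc, ENNReal.inv_mul_cancel (cst_ne_zero _) (cst_ne_top _), one_mul] at h3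
  · have hA' : A ≤ e * v := hA.trans (by gcongr)
    have w1 := hN.wide hv ha hb hc hA' he (f := fun z => φ (F.τ z y)) (by fun_prop)
      fun u => φ1 _
    have w2 := hN.wide hv ha' hb' hc' hA' he (f := fun z => ψ (F.τ z y)) (by fun_prop)
      fun u => ψ1 _
    have w3 : ∫⁻ u, φ (F.τ u y) ∂G3 m (v + A) (v + A) (v + A) +
        ∫⁻ u, ψ (F.τ u y) ∂G3 m (v + A) (v + A) (v + A) ≤ 1 := by
      rw [← lintegral_add_left (by fun_prop)]
      exact (lintegral_mono fun u => h2 _).trans (by simp)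
    rw [mul_comm]
    refine mul_le_mul_left ((add_le_add w1 w2).trans ?_) _
    calc _ = (1 + 3 * e) * (∫⁻ u, φ (F.τ u y) ∂G3 m (v + A) (v + A) (v + A) +
          ∫⁻ u, ψ (F.τ u y) ∂G3 m (v + A) (v + A) (v + A)) + 2 * e := by ring
      _ ≤ (1 + 3 * e) * 1 + 2 * e := by gcongr
      _ = _ := by ring

lemma bound [IsProbabilityMeasure M] {D : Ω → ℝ≥0∞} (hD : Measurable D)
    {lo σ t A a b c a' b' c' e : ℝ≥0} {δ : ℝ}
    (hδ : 0 < δ) (hlo : lo ≠ 0) (he0 : e ≠ 0) (hlt : lo ≤ t) (htσ : t ≤ σ)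
    (ha : 2 * lo ≤ a ∧ a ≤ A) (hb : 2 * lo ≤ b ∧ b ≤ A) (hc : 2 * lo ≤ c ∧ c ≤ A)
    (ha' : 2 * lo ≤ a' ∧ a' ≤ A) (hb' : 2 * lo ≤ b' ∧ b' ≤ A) (hc' : 2 * lo ≤ c' ∧ c' ≤ A)
    (hA : A ≤ e * t) (he : e ≤ 4⁻¹) (hR : Rig F D lo σ e⁻¹ e δ)
    (d1 : ∫⁻ y, D y ∂M ≤ ENNReal.ofReal δ * e)
    (d3 : ∫⁻ y, rat F t σ y ∂M ≤ cst e⁻¹ * e) :
    ∫⁻ y, F.hh a b c y - F.hh a' b' c' y ∂M ≤ 21 * e := by
  let S : Set Ω := {y | F.hh a' b' c' y < F.hh a b c y}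
  have hS : MeasurableSet S := measurableSet_lt (by fun_prop) (by fun_prop)
  have hφ : Measurable (S.indicator (1 : Ω → ℝ≥0∞)) := measurable_one.indicator hS
  have hψ : Measurable (Sᶜ.indicator (1 : Ω → ℝ≥0∞)) := measurable_one.indicator hS.compl
  have h2 : ∀ x, S.indicator (1 : Ω → ℝ≥0∞) x + Sᶜ.indicator 1 x ≤ 1 := fun x => by
    by_cases hx : x ∈ S <;> simp [hx]
  have hfin : ∀ᵐ y ∂M, F.hh σ σ σ y < ∞ :=
    ae_lt_top (by fun_prop) (by rw [lintegral_hh]; simp)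
  have h3 := lintegral_mono_ae (hfin.mono fun y hy => point F hδ hlo (inv_ne_zero he0) hlt htσ
    ha hb hc ha' hb' hc' hA he hR hφ hψ h2 hy.ne)
  have l2 : ∀ {x : ℝ≥0}, 2 * lo ≤ x → lo ≤ x := fun h =>
    le_trans (by rw [two_mul]; exact le_self_add) h
  rw [F.lintegral_cv_prob (by fun_prop)] at h3
  simp_rw [mul_add (F.hh lo lo lo _)] at h3
  rw [lintegral_add_left (by fun_prop), lintegral_wavg F hφ (l2 ha.1) (l2 hb.1) (l2 hc.1),
    lintegral_wavg F hψ (l2 ha'.1) (l2 hb'.1) (l2 hc'.1), lintegral_add_left (by fun_prop),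
    lintegral_const_mul _ (by fun_prop), lintegral_const_mul _ (by fun_prop),
    lintegral_add_left (by fun_prop), lintegral_add_left (by fun_prop),
    lintegral_add_left (by fun_prop),
    lintegral_const_mul _ (by fun_prop), lintegral_const_mul _ (by fun_prop),
    lintegral_const_mul _ (by fun_prop),
    lintegral_const_mul _ (by fun_prop), F.lintegral_cv_prob (by fun_prop), lintegral_hh,
    lintegral_mom, ← lintegral_add_left (by fun_prop)] at h3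
  have h4 : ∫⁻ y, S.indicator 1 y * F.hh a b c y + Sᶜ.indicator 1 y * F.hh a' b' c' y ∂M =
      1 + ∫⁻ y, F.hh a b c y - F.hh a' b' c' y ∂M := by
    rw [← lintegral_hh F a' b' c', ← lintegral_add_left (by fun_prop)]
    refine lintegral_congr fun y => ?_
    by_cases hy : y ∈ S
    · have : F.hh a' b' c' y < F.hh a b c y := hy
      simp [hy, add_tsub_cancel_of_le this.le]
    · have : F.hh a b c y ≤ F.hh a' b' c' y := not_lt.1 hy
      simp [hy, tsub_eq_zero_of_le this]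
  have q1 : ∀ x : ℝ≥0, (3 * x : ℝ≥0∞) ≤ ((e⁻¹ * x : ℝ≥0) : ℝ≥0∞) * (3 * e) := fun x => by
    have : e⁻¹ * x * (3 * e) = 3 * x := by field_simp
    exact_mod_cast this.ge
  have h5 := h3.trans (add_le_add_right (mul_le_mul_right (add_le_add (add_le_add
    (add_le_add (H46.inv_mul_le_of ((lintegral_mom1 F lo σ).trans (q1 σ)))
      (H46.inv_mul_le_of (q1 lo))) (H46.inv_mul_le_of d1)) (H46.inv_mul_le_of d3)) 2) _)
  rw [h4] at h5
  refine (ENNReal.add_le_add_iff_left ENNReal.one_ne_top).1 (h5.trans (le_of_eq ?_))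
  ring

/-- The total defect in the three frames. -/
noncomputable def dep3 (R₂ R₃ : T3 ≃ₗ[ℝ] T3) (lo σ : ℝ≥0) (y : Ω) : ℝ≥0∞ :=
  F.dep (fun _ => 1) lo σ lo σ lo σ y + (F.rep R₂).dep (fun _ => 1) lo σ lo σ lo σ y +
    (F.rep R₃).dep (fun _ => 1) lo σ lo σ lo σ y

lemma key (hR : RigidStmt) [IsProbabilityMeasure M] {κ : ℝ≥0} (hκ : 4 ≤ κ)
    {R₂ R₃ : T3 ≃ₗ[ℝ] T3} (hG : Gen R₂ R₃) (hE : F.EmpOut κ) (N : ℕ) {ε : ℝ≥0∞}
    (hε : ε ≠ 0) : ∃ (K : ℕ) (d : ℝ≥0∞), K ≠ 0 ∧ d ≠ 0 ∧ ∀ᶠ T : ℕ in atTop,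
      ∫⁻ y, dep3 F R₂ R₃ (κ ^ T) (κ ^ (T + K)) y ∂M ≤ d →
      ∀ R, Orth R → (F.rep R).Win κ N (T + (N + 1)) ε := by
  obtain ⟨e₀, h0, h21⟩ := ENNReal.exists_nnreal_pos_mul_lt (a := 21) (by simp) hε
  obtain ⟨e, he0, he, he21⟩ : ∃ e : ℝ≥0, e ≠ 0 ∧ e ≤ 4⁻¹ ∧ (21 * e : ℝ≥0∞) ≤ ε :=
    ⟨min e₀ 4⁻¹, (lt_min h0 (by norm_num)).ne', min_le_right _ _, le_trans (by
      rw [mul_comm]; gcongr; exact min_le_left _ _) h21.le⟩
  have k1 : 1 < κ := lt_of_lt_of_le (by norm_num) hκ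
  have k2 : 2 ≤ κ := le_trans (by norm_num) hκ
  have k0 : κ ≠ 0 := (zero_lt_one.trans k1).ne'
  have mono : ∀ {i j : ℕ}, i ≤ j → κ ^ i ≤ κ ^ j := fun h => pow_le_pow_right₀ k1.le h
  have mono2 : ∀ {i j : ℕ}, i + 1 ≤ j → 2 * κ ^ i ≤ κ ^ j := fun {i j} h =>
    le_trans (by rw [pow_succ, mul_comm]; gcongr) (mono h)
  obtain ⟨j, hj⟩ := pow_unbounded_of_one_lt e⁻¹ k1
  obtain ⟨Ne, hNe⟩ := hE (cst e⁻¹ * e) (mul_ne_zero (cst_ne_zero _) (by simpa using he0))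
  let K := N + 1 + N + j + Ne + 1
  obtain ⟨δ, hδ, hR'⟩ := hR R₂ R₃ hG e⁻¹ (κ ^ K)⁻¹
    (by positivity) (inv_le_one_of_one_le₀ (one_le_pow₀ k1.le)) e he0
  refine ⟨K, ENNReal.ofReal δ * e, by simp [K], mul_ne_zero (by simpa using hδ)
    (by simpa using he0), ?_⟩
  filter_upwards [(tendsto_add_atTop_nat (N + 1 + N + j)).eventually hNe] with T hT d1 R hO k hk
  have hRig : Rig F (dep3 F R₂ R₃ (κ ^ T) (κ ^ (T + K))) (κ ^ T) (κ ^ (T + K)) e⁻¹ e δ := by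
    intro y h1 h2 h3
    have hl : κ ^ T ≤ κ ^ (T + K) := mono (by omega)
    have := post_prob F hl h1
    have dp : ∀ R, Orth R → (F.rep R).dep (fun _ => 1) (κ ^ T) (κ ^ (T + K)) (κ ^ T) (κ ^ (T + K))
        (κ ^ T) (κ ^ (T + K)) y ≤ dep3 F R₂ R₃ (κ ^ T) (κ ^ (T + K)) y →
        Dep ((post F (κ ^ T) (κ ^ (T + K)) y).map R.symm) δ := fun R hO h => by
      rw [← post_rep F hO]
      refine dep_post _ hl (by rwa [rep_hh F hO]) hδ.le ?_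
      rw [rep_hh F hO]
      exact h.trans h3
    obtain ⟨m, v, b1, b2, b3⟩ := hR' (κ ^ (T + K)) (by positivity) _ h2
      (dep_post F hl h1 hδ.le ((le_add_right le_self_add).trans h3))
      (dp R₂ hG.o₂ (le_add_right le_add_self)) (dp R₃ hG.o₃ le_add_self)
    refine ⟨m, v, b1, b2, ?_⟩
    rwa [show κ ^ (T + K) * (κ ^ K)⁻¹ = κ ^ T by rw [pow_add]; field_simp] at b3
  refine le_trans (bound (F.rep R) (by unfold dep3; fun_prop) (t := κ ^ (T + (N + 1 + N + j)))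
    (A := κ ^ (T + (N + 1) + N)) hδ
    (by positivity) he0 (mono (by omega)) (mono (by omega)) ⟨mono2 (by omega), mono (by omega)⟩
    ⟨mono2 (by omega), mono (by omega)⟩ ⟨mono2 (by omega), mono (by omega)⟩
    ⟨mono2 (by omega), mono (by omega)⟩ ⟨mono2 (by omega), mono (by omega)⟩
    ⟨mono2 (by omega), mono (by omega)⟩ ?_ he (hRig.rep F hO) d1 ?_) he21
  · rw [show T + (N + 1 + N + j) = j + (T + (N + 1) + N) by omega, pow_add κ j, ← mul_assoc]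
    refine le_mul_of_one_le_left zero_le ?_
    rw [← mul_inv_cancel₀ he0]
    gcongr
  · refine le_trans (lintegral_mono fun y => ?_) hT
    rw [rat, F.rep_ms hO, F.rep_ms hO, NNReal.coe_pow, NNReal.coe_pow]
    refine mul_le_mul_left (ENNReal.inv_le_inv.2 (F.ms_mono (by positivity) ?_ y)) _
    have := mono2 (i := T + (N + 1 + N + j) + Ne) (j := T + K) (by omega)
    rw [le_div_iff₀ two_pos, mul_comm]
    exact_mod_cast this

theorem win (hR : RigidStmt) : WinStmt := by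
  intro Ω _ M _ F κ R₂ R₃ hκ hG E1 E2 E3 hE N ε hε
  obtain ⟨K, d, k1, d1, H⟩ := key F hR hκ hG hE N hε
  have hd : d / 3 ≠ 0 := ENNReal.div_ne_zero.2 ⟨d1, by simp⟩
  obtain ⟨n, ⟨a1, a2, a3⟩, hn⟩ := (((E1 K _ k1 hd).and ((E2 K _ k1 hd).and
    (E3 K _ k1 hd))).and (eventually_ne_atTop 0)).exists
  obtain ⟨T₁, hT₁⟩ := eventually_atTop.1 H
  refine frequently_atTop.2 fun a => ?_
  obtain ⟨T₀, ⟨b1, b2, b3⟩, b5⟩ :=
    ((a1.and (a2.and a3)).and (eventually_ge_atTop (max a T₁))).exists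
  have hsum := add_le_add (add_le_add b1 b2) b3
  rw [← Finset.sum_add_distrib, ← Finset.sum_add_distrib, ← mul_add, ← mul_add] at hsum
  obtain ⟨T, hT⟩ := H46.exists_le_of_sum hn hsum
  rw [← three_mul', ENNReal.mul_div_cancel (by simp) (by simp),
    ← lintegral_add_left (by fun_prop), ← lintegral_add_left (by fun_prop)] at hT
  have c := hT₁ (T₀ + T) (by omega) hT
  exact ⟨T₀ + T + (N + 1), by omega, c _ orth_refl, c _ hG.o₂, c _ hG.o₃⟩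

end Pool.Agent.MP_2b113a_an.H99
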